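import Pool.Agent.Q246.RO.Fin

open MeasureTheory Set
open scoped ENNReal Topology Pointwise

namespace Pool.Agent.Results.MP_a4d326_an.FirstOrbitWins

/-- `x mod 2π`: the representative of `x` in `[0, 2π)`. -/
noncomputable def md (x : ℝ) : ℝ := toIcoMod Real.two_pi_pos 0 x

/-- The square `E = [0, 2π)²` of pairs of angles. -/
def E : Set (ℝ × ℝ) := Ico 0 (2 * Real.pi) ×ˢ Ico 0 (2 * Real.pi)

/-- The least `n ≥ 1` with `P n`, or `⊤` when there is none. -/
noncomputable def firstTime (P : ℕ → Prop) : ℕ∞ := sInf {t | ∃ n : ℕ, 1 ≤ n ∧ P n ∧ t = n}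

/-- `τ₁(a, b)`: the least `n ≥ 1` with `(n a - b) mod 2π < ε`. -/
noncomputable def tau1 (ε : ℝ) (p : ℝ × ℝ) : ℕ∞ := firstTime fun n => md (n * p.1 - p.2) < ε

/-- `τ₂(a, b)`: the least `n ≥ 1` with `(n a - n b) mod 2π < ε`. -/
noncomputable def tau2 (ε : ℝ) (p : ℝ × ℝ) : ℕ∞ := firstTime fun n => md (n * p.1 - n * p.2) < ε

/-- `E¹_ε`: the pairs of `E` with `τ₁ < τ₂`. -/
noncomputable def E1 (ε : ℝ) : Set (ℝ × ℝ) := {p | p ∈ E ∧ tau1 ε p < tau2 ε p}

/-- `E²_ε`: the other pairs of `E`. -/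
noncomputable def E2 (ε : ℝ) : Set (ℝ × ℝ) := E \ E1 ε

/-- The Lebesgue measure of `E¹_ε`. -/
noncomputable def m1 (ε : ℝ) : ℝ := (volume (E1 ε)).toReal

/-- The Lebesgue measure of `E²_ε`. -/
noncomputable def m2 (ε : ℝ) : ℝ := (volume (E2 ε)).toReal

theorem firstTime_lt_iff (P Q : ℕ → Prop) :
    firstTime P < firstTime Q ↔ ∃ n : ℕ, 1 ≤ n ∧ P n ∧ ∀ k : ℕ, 1 ≤ k → k ≤ n → ¬ Q k := by
  constructor
  · intro h
    have hne : {t : ℕ∞ | ∃ n : ℕ, 1 ≤ n ∧ P n ∧ t = n}.Nonempty := by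
      by_contra hc
      rw [Set.not_nonempty_iff_eq_empty] at hc
      unfold firstTime at h
      rw [hc, sInf_empty] at h
      exact not_top_lt h
    obtain ⟨n, hn, hPn, hnt⟩ := csInf_mem hne
    refine ⟨n, hn, hPn, fun k hk hkn hQ => ?_⟩
    have h1 : firstTime Q ≤ (k : ℕ∞) := sInf_le ⟨k, hk, hQ, rfl⟩
    have h2 : (k : ℕ∞) ≤ (n : ℕ∞) := by exact_mod_cast hkn
    have h3 : firstTime P = (n : ℕ∞) := hnt
    rw [h3] at h
    exact absurd (h.trans_le (h1.trans h2)) (lt_irrefl _)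
  · rintro ⟨n, hn, hPn, hQ⟩
    have h1 : firstTime P ≤ (n : ℕ∞) := sInf_le ⟨n, hn, hPn, rfl⟩
    have h2 : ((n + 1 : ℕ) : ℕ∞) ≤ firstTime Q := by
      refine le_sInf ?_
      rintro t ⟨m, hm, hQm, rfl⟩
      have : n + 1 ≤ m := by
        by_contra hc
        exact hQ m hm (by omega) hQm
      exact_mod_cast this
    refine h1.trans_lt (lt_of_lt_of_le ?_ h2)
    exact_mod_cast Nat.lt_succ_self n

open Pool.Agent.Q246.RO in
theorem mem_iff {δ : ℝ} (hδ1 : δ ≤ 1) (x y : ℝ) :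
    tau1 (2 * Real.pi * δ) (2 * Real.pi * x, 2 * Real.pi * y) <
      tau2 (2 * Real.pi * δ) (2 * Real.pi * x, 2 * Real.pi * y) ↔
    (((x : ℝ) : TT), ((y : ℝ) : TT)) ∈ EE δ := by
  unfold tau1 tau2
  rw [firstTime_lt_iff]
  have h1 : ∀ n : ℕ, md (n * (2 * Real.pi * x) - 2 * Real.pi * y) < 2 * Real.pi * δ ↔
      n • ((x : ℝ) : TT) - ((y : ℝ) : TT) ∈ ar 0 δ := by
    intro n
    have e : (n : ℝ) * (2 * Real.pi * x) - 2 * Real.pi * y = 2 * Real.pi * (n * x - y) := by ring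
    rw [e]
    have := md_lt_iff hδ1 ((n : ℝ) * x - y)
    rw [AddCircle.coe_sub, ← nsmul_eq_mul, AddCircle.coe_nsmul] at this
    rw [nsmul_eq_mul] at this
    exact this
  have h2 : ∀ n : ℕ, md (n * (2 * Real.pi * x) - n * (2 * Real.pi * y)) < 2 * Real.pi * δ ↔
      n • (((x : ℝ) : TT) - ((y : ℝ) : TT)) ∈ ar 0 δ := by
    intro n
    have e : (n : ℝ) * (2 * Real.pi * x) - n * (2 * Real.pi * y) =
        2 * Real.pi * (n * (x - y)) := by ring
    rw [e]
    have := md_lt_iff hδ1 ((n : ℝ) * (x - y))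
    have e2 : (((n : ℝ) * (x - y) : ℝ) : TT) = n • (((x : ℝ) : TT) - ((y : ℝ) : TT)) := by
      rw [← nsmul_eq_mul, AddCircle.coe_nsmul, AddCircle.coe_sub]
    rw [e2] at this
    exact this
  simp only [EE, Set.mem_ofPred_eq]
  constructor
  · rintro ⟨n, hn, hA, hB⟩
    refine ⟨n, hn, (h1 n).1 hA, ?_⟩
    rintro ⟨k, hk1, hkn, s, hs1, hs2, hs3⟩
    refine hB k hk1 hkn ((h2 k).2 ?_)
    rw [hs3]
    exact ⟨s, ⟨hs1, by linarith⟩, rfl⟩
  · rintro ⟨n, hn, hA, hB⟩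
    refine ⟨n, hn, (h1 n).2 hA, fun k hk1 hkn hQ => hB ?_⟩
    obtain ⟨s, ⟨hs1, hs2⟩, hs3⟩ := (h2 k).1 hQ
    exact ⟨k, hk1, hkn, s, hs1, by linarith, hs3.symm⟩

open Pool.Agent.Q246.RO in
theorem measurableSet_EE (δ : ℝ) : MeasurableSet (EE δ) := by
  have : EE δ = ⋃ n : ℕ, ⋃ _ : 1 ≤ n, {p : TT × TT | n • p.1 - p.2 ∈ ar 0 δ ∧ p.1 - p.2 ∉ Hit n 0 δ} := by
    ext p
    simp only [EE, Set.mem_ofPred_eq, Set.mem_iUnion, exists_prop]
  rw [this]
  refine MeasurableSet.iUnion fun n => MeasurableSet.iUnion fun _ => ?_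
  have h1 : Measurable (fun p : TT × TT => n • p.1 - p.2) :=
    (((continuous_nsmul n).comp continuous_fst).sub continuous_snd).measurable
  have h2 : Measurable (fun p : TT × TT => p.1 - p.2) :=
    (continuous_fst.sub continuous_snd).measurable
  exact (h1 (measurableSet_ar _ _)).inter (h2 (measurableSet_Hit _ _ _)).compl

open Pool.Agent.Q246.RO in
/-- The unit-scale set. -/
def S1 (δ : ℝ) : Set (ℝ × ℝ) :=
  (fun q : ℝ × ℝ => (((q.1 : ℝ) : TT), ((q.2 : ℝ) : TT))) ⁻¹' EE δ ∩ (Ico 0 1 ×ˢ Ico 0 1)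

open Pool.Agent.Q246.RO in
theorem vol_S1 (δ : ℝ) :
    (volume : Measure (ℝ × ℝ)) (S1 δ) = ((volume : Measure TT).prod (volume : Measure TT)) (EE δ) := by
  have hmp : MeasurePreserving (fun x : ℝ => ((x : ℝ) : TT))
      ((volume : Measure ℝ).restrict (Ico 0 1)) (volume : Measure TT) := by
    have h := UnitAddCircle.measurePreserving_mk 0
    rw [zero_add] at h
    rwa [Measure.restrict_congr_set (Ico_ae_eq_Ioc (μ := (volume : Measure ℝ)) (a := 0) (b := 1))]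
  have h2 := hmp.prod hmp
  have h3 := h2.measure_preimage (measurableSet_EE δ).nullMeasurableSet
  rw [← h3, Measure.prod_restrict, Measure.restrict_apply (h2.measurable (measurableSet_EE δ))]
  rfl

open Pool.Agent.Q246.RO in
theorem E1_eq {δ : ℝ} (hδ1 : δ ≤ 1) : E1 (2 * Real.pi * δ) = (2 * Real.pi) • S1 δ := by
  have hpi := Real.pi_pos
  have h2pi : (2 * Real.pi) ≠ 0 := by positivity
  ext p
  rw [Set.mem_smul_set_iff_inv_smul_mem₀ h2pi]
  obtain ⟨a, b⟩ := p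
  simp only [E1, E, S1, Set.mem_ofPred_eq, Set.mem_prod, Set.mem_Ico, Set.mem_inter_iff,
    Set.mem_preimage, Prod.smul_mk, smul_eq_mul]
  have ha : a = 2 * Real.pi * ((2 * Real.pi)⁻¹ * a) := by field_simp
  have hb : b = 2 * Real.pi * ((2 * Real.pi)⁻¹ * b) := by field_simp
  set x := (2 * Real.pi)⁻¹ * a with hx
  set y := (2 * Real.pi)⁻¹ * b with hy
  have key := mem_iff hδ1 x y
  rw [← ha, ← hb] at key
  rw [key]
  have e1 : 0 ≤ a ↔ 0 ≤ x := by
    rw [ha]; constructor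
    · intro h; by_contra hc; push Not at hc; nlinarith
    · intro h; positivity
  have e2 : 0 ≤ b ↔ 0 ≤ y := by
    rw [hb]; constructor
    · intro h; by_contra hc; push Not at hc; nlinarith
    · intro h; positivity
  have e3 : a < 2 * Real.pi ↔ x < 1 := by
    rw [ha]; constructor
    · intro h; by_contra hc; push Not at hc; nlinarith
    · intro h; nlinarith
  have e4 : b < 2 * Real.pi ↔ y < 1 := by
    rw [hb]; constructor
    · intro h; by_contra hc; push Not at hc; nlinarith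
    · intro h; nlinarith
  rw [e1, e2, e3, e4]
  tauto

open Pool.Agent.Q246.RO in
theorem measurableSet_S1 (δ : ℝ) : MeasurableSet (S1 δ) := by
  have hm : Measurable (fun q : ℝ × ℝ => (((q.1 : ℝ) : TT), ((q.2 : ℝ) : TT))) :=
    (((AddCircle.continuous_mk' 1).comp continuous_fst).prodMk
      ((AddCircle.continuous_mk' 1).comp continuous_snd)).measurable
  exact (hm (measurableSet_EE δ)).inter (measurableSet_Ico.prod measurableSet_Ico)

theorem vol_E : (volume : Measure (ℝ × ℝ)) E = ENNReal.ofReal ((2 * Real.pi) ^ 2) := by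
  have hpi := Real.pi_pos
  unfold E
  rw [Measure.volume_eq_prod, Measure.prod_prod, Real.volume_Ico, sub_zero, sq]
  exact (ENNReal.ofReal_mul (by positivity)).symm

open Pool.Agent.Q246.RO in
theorem vol_E1 {δ : ℝ} (hδ1 : δ ≤ 1) : (volume : Measure (ℝ × ℝ)) (E1 (2 * Real.pi * δ)) =
    ENNReal.ofReal ((2 * Real.pi) ^ 2) * ((volume : Measure TT).prod (volume : Measure TT)) (EE δ) := by
  have hpi := Real.pi_pos
  rw [E1_eq hδ1, Measure.addHaar_smul, vol_S1]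
  congr 2
  have : Module.finrank ℝ (ℝ × ℝ) = 2 := by simp
  rw [this, abs_of_nonneg (by positivity)]

theorem measurableSet_E1 {δ : ℝ} (hδ1 : δ ≤ 1) : MeasurableSet (E1 (2 * Real.pi * δ)) := by
  have hpi := Real.pi_pos
  rw [E1_eq hδ1]
  exact (measurableSet_S1 δ).const_smul_of_ne_zero (by positivity)

open Pool.Agent.Q246.RO in
theorem m1_eq {δ : ℝ} (hδ1 : δ ≤ 1) : m1 (2 * Real.pi * δ) =
    (2 * Real.pi) ^ 2 * ((volume : Measure TT).prod (volume : Measure TT)).real (EE δ) := by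
  unfold m1
  rw [vol_E1 hδ1, ENNReal.toReal_mul, ENNReal.toReal_ofReal (by positivity)]
  rfl

theorem m_add {δ : ℝ} (hδ1 : δ ≤ 1) :
    m1 (2 * Real.pi * δ) + m2 (2 * Real.pi * δ) = (2 * Real.pi) ^ 2 := by
  have hsub : E1 (2 * Real.pi * δ) ⊆ E := fun p hp => hp.1
  have hfin : (volume : Measure (ℝ × ℝ)) E ≠ ⊤ := by rw [vol_E]; exact ENNReal.ofReal_ne_top
  have h1 : (volume : Measure (ℝ × ℝ)) (E2 (2 * Real.pi * δ)) =
      volume E - volume (E1 (2 * Real.pi * δ)) :=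
    measure_sdiff hsub (measurableSet_E1 hδ1).nullMeasurableSet
      (ne_top_of_le_ne_top hfin (measure_mono hsub))
  unfold m1 m2
  rw [h1, ENNReal.toReal_sub_of_le (measure_mono hsub) hfin, vol_E,
    ENNReal.toReal_ofReal (by positivity)]
  ring

open Pool.Agent.Q246.RO in
theorem EE_upper {δ : ℝ} (hδ1 : δ ≤ 1) :
    ((volume : Measure TT).prod (volume : Measure TT)).real (EE δ) ≤ 1 - δ := by
  have hm : Measurable (fun p : TT × TT => p.1 - p.2) :=
    (continuous_fst.sub continuous_snd).measurable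
  set T : Set (TT × TT) := {p | p.1 - p.2 ∈ ar 0 δ} with hT
  have hTm : MeasurableSet T := hm (measurableSet_ar 0 δ)
  have h1 : EE δ ⊆ Tᶜ := by
    rintro p ⟨n, hn, _, hB⟩ ⟨s, ⟨hs1, hs2⟩, hs3⟩
    exact hB ⟨1, le_rfl, hn, s, hs1, by linarith, by rw [one_nsmul]; exact hs3.symm⟩
  have h2 : δ ≤ ((volume : Measure TT).prod (volume : Measure TT)).real T := by
    have h3 := integral_le_prod hTm (φ := fun _ => δ) (integrable_const _) (fun a => by
      have h4 := (Measure.measurePreserving_sub_left (volume : Measure TT) a).measure_preimage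
        (measurableSet_ar 0 δ).nullMeasurableSet
      have h5 : (Prod.mk a ⁻¹' T) = (fun b => a - b) ⁻¹' ar 0 δ := rfl
      rw [h5, h4]
      exact vol_ar_ge 0 hδ1)
    simpa using h3
  calc ((volume : Measure TT).prod (volume : Measure TT)).real (EE δ)
      ≤ ((volume : Measure TT).prod (volume : Measure TT)).real Tᶜ :=
        measureReal_mono h1 (measure_ne_top _ _)
    _ = 1 - ((volume : Measure TT).prod (volume : Measure TT)).real T := by
        rw [probReal_compl_eq_one_sub hTm]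
    _ ≤ _ := by linarith

/-- For all small `ε` the set `E¹_ε` is larger than `E²_ε` by at least `π²/25`, hence the
difference of the measures does not tend to `0`; for `π < ε < 2π` the set `E²_ε` is larger. -/
theorem result :
    (∃ ε₀ : ℝ, 0 < ε₀ ∧ ∀ ε : ℝ, 0 < ε → ε < ε₀ → Real.pi ^ 2 / 25 ≤ m1 ε - m2 ε) ∧
      (∀ ε : ℝ, Real.pi < ε → ε < 2 * Real.pi → m1 ε < m2 ε) ∧
      ¬ Filter.Tendsto (fun ε => m1 ε - m2 ε) (𝓝[>] 0) (𝓝 0) := by
  have hpi := Real.pi_pos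
  have hA : ∃ ε₀ : ℝ, 0 < ε₀ ∧ ∀ ε : ℝ, 0 < ε → ε < ε₀ → Real.pi ^ 2 / 25 ≤ m1 ε - m2 ε := by
    obtain ⟨δ₀, h0, h1, h2⟩ := Pool.Agent.Q246.RO.eventually_lower
    refine ⟨2 * Real.pi * δ₀, by positivity, fun ε hε hε' => ?_⟩
    set δ := ε / (2 * Real.pi) with hδ
    have hεδ : ε = 2 * Real.pi * δ := by rw [hδ]; field_simp
    have hδ0 : 0 < δ := by positivity
    have hδ' : δ < δ₀ := by rw [hδ, div_lt_iff₀ (by positivity)]; linarith
    have hδ1 : δ ≤ 1 := by linarith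
    have h3 := h2 δ hδ0 hδ'
    have h4 := m1_eq hδ1
    have h5 := m_add hδ1
    rw [hεδ]
    have h6 : (2 * Real.pi) ^ 2 * 0.505 ≤ m1 (2 * Real.pi * δ) := by rw [h4]; gcongr
    nlinarith
  refine ⟨hA, fun ε h1 h2 => ?_, ?_⟩
  · set δ := ε / (2 * Real.pi) with hδ
    have hεδ : ε = 2 * Real.pi * δ := by rw [hδ]; field_simp
    have hδ1 : δ ≤ 1 := by rw [hδ, div_le_one (by positivity)]; exact h2.le
    have hδ2 : 1 / 2 < δ := by rw [hδ, lt_div_iff₀ (by positivity)]; linarith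
    have h3 := EE_upper hδ1
    have h4 := m1_eq hδ1
    have h5 := m_add hδ1
    rw [hεδ]
    have h6 : m1 (2 * Real.pi * δ) ≤ (2 * Real.pi) ^ 2 * (1 - δ) := by rw [h4]; gcongr
    have h7 : (2 * Real.pi) ^ 2 * (1 - δ) < (2 * Real.pi) ^ 2 * (1 / 2) := by
      have : 1 - δ < 1 / 2 := by linarith
      have h8 : 0 < (2 * Real.pi) ^ 2 := by positivity
      exact mul_lt_mul_of_pos_left this h8
    linarith
  · intro hT
    obtain ⟨ε₀, h0, h1⟩ := hA
    have h2 : ∀ᶠ ε in 𝓝[>] (0 : ℝ), m1 ε - m2 ε < Real.pi ^ 2 / 25 :=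
      hT.eventually (gt_mem_nhds (by positivity))
    have h3 : ∀ᶠ ε in 𝓝[>] (0 : ℝ), 0 < ε ∧ ε < ε₀ := Ioo_mem_nhdsGT h0
    obtain ⟨ε, h4, h5, h6⟩ := (h2.and h3).exists
    exact absurd (h1 ε h5 h6) (not_le.2 h4)

end Pool.Agent.Results.MP_a4d326_an.FirstOrbitWins
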